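import Pool.Agent.Helper77.SO.St3

/-!
# MP_7a9ddc_co, project SO, module AFM: from the simple graph to the map
-/

set_option autoImplicit false

namespace Pool.Agent.Helper17.SO.AFM

open Equiv Equiv.Perm Pool.Agent.Helper35.PM Pool.Agent.Helper77.HY Pool.Agent.Helper77.OF4
  Pool.Agent.Helper77.SO

theorem per_pos {α : Type} [Finite α] (π : Perm α) (a : α) : 0 < Function.minimalPeriod π a := by
  have h : Function.IsPeriodicPt π (orderOf π) a := by
    unfold Function.IsPeriodicPt Function.IsFixedPt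
    rw [← Perm.coe_pow, pow_orderOf_eq_one]
    rfl
  exact h.minimalPeriod_pos (orderOf_pos π)

theorem finDart {V : Type} [Finite V] (G : SimpleGraph V) : Finite G.Dart :=
  Finite.of_injective (fun d : G.Dart => d.toProd) fun _ _ h => SimpleGraph.Dart.ext _ _ h

/-- Choice of the darts. -/
theorem choose_c {V D : Type} [Finite V] (M : PMap V D) :
    ∃ c : M.graph.Dart → D, (∀ d, M.t (c d) = d.fst) ∧ (∀ d, M.t (M.ι (c d)) = d.snd) ∧
      ∀ d, M.ι (c d) = c d.symm := by
  classical
  have h1 : ∀ d : M.graph.Dart, ∃ k, M.t k = d.fst ∧ M.t (M.ι k) = d.snd := fun d => d.adj.2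
  choose f hf1 hf2 using h1
  obtain ⟨n, ⟨e⟩⟩ := Finite.exists_equiv_fin V
  refine ⟨fun d => if e d.fst < e d.snd then f d else M.ι (f d.symm), ?_, ?_, ?_⟩
  · intro d
    by_cases h : e d.fst < e d.snd
    · simp only [h, if_true]
      exact hf1 d
    · simp only [h, if_false]
      rw [hf2]
      rfl
  · intro d
    by_cases h : e d.fst < e d.snd
    · simp only [h, if_true]
      exact hf2 d
    · simp only [h, if_false]
      rw [M.inv, hf1]
      rfl
  · intro d
    have hne : e d.fst ≠ e d.snd := fun h => d.adj.ne (e.injective h)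
    by_cases h : e d.fst < e d.snd
    · have h' : ¬ e d.symm.fst < e d.symm.snd := not_lt.2 h.le
      simp only [h, h', if_true, if_false]
      rw [SimpleGraph.Dart.symm_symm]
    · have h' : e d.symm.fst < e d.symm.snd := lt_of_le_of_ne (not_lt.1 h) hne.symm
      simp only [h, h', if_true, if_false]
      rw [M.inv]

section transfer

variable {A D : Type} [Finite A] (π : Perm D) (R : Perm A) (c : A → D)
  (n : A → ℕ) (hn1 : ∀ d, c (R d) = (π ^ (n d + 1)) (c d))
  (hn2 : ∀ d, ∀ j < n d, (π ^ (j + 1)) (c d) ∉ Set.range c)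

/-- The positions. -/
def kp (a : A) : ℕ → ℕ
  | 0 => 0
  | i + 1 => kp a i + n ((R ^ i) a) + 1

theorem kp_lt (a : A) (i : ℕ) : kp R n a i < kp R n a (i + 1) := by
  simp only [kp]
  omega

theorem kp_mono (a : A) : StrictMono (kp R n a) := strictMono_nat_of_lt_succ (kp_lt R n a)

include hn1 in
theorem kp_spec (a : A) (i : ℕ) : c ((R ^ i) a) = (π ^ (kp R n a i)) (c a) := by
  induction i with
  | zero => simp [kp]
  | succ i ih =>
    rw [pow_succ', Perm.mul_apply, hn1, ih, ← Perm.mul_apply, ← pow_add]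
    congr 2
    simp only [kp]
    omega

include hn1 hn2 in
theorem kp_surj (a : A) (s : ℕ) (hs : (π ^ s) (c a) ∈ Set.range c) : ∃ i, kp R n a i = s := by
  have hex : ∃ i, s < kp R n a (i + 1) := ⟨s, by
    have := (kp_mono R n a).id_le (s + 1)
    simp only [id] at this
    omega⟩
  classical
  set i := Nat.find hex with hi
  have h1 : s < kp R n a (i + 1) := Nat.find_spec hex
  have h2 : kp R n a i ≤ s := by
    rcases Nat.eq_zero_or_pos i with h0 | h0
    · rw [h0]
      exact Nat.zero_le _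
    · have h3 := Nat.find_min hex (m := i - 1) (by omega)
      rw [not_lt] at h3
      have e : i - 1 + 1 = i := by omega
      rwa [e] at h3
  refine ⟨i, ?_⟩
  by_contra hne
  have h4 : kp R n a i < s := lt_of_le_of_ne h2 hne
  obtain ⟨j, hj⟩ : ∃ j, s = kp R n a i + (j + 1) := ⟨s - kp R n a i - 1, by omega⟩
  have hjn : j < n ((R ^ i) a) := by
    have h5 : kp R n a (i + 1) = kp R n a i + n ((R ^ i) a) + 1 := rfl
    omega
  apply hn2 _ j hjn
  rw [kp_spec π R c n hn1 a i, ← Perm.mul_apply, ← pow_add]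
  have e : j + 1 + kp R n a i = s := by omega
  rw [e]
  exact hs

include hn1 hn2 in
theorem alt_transfer (hc : Function.Injective c) (a b c' e : A)
    (h : Alt π (c a) (c b) (c c') (c e)) : Alt R a b c' e := by
  obtain ⟨i, j, k, h0, h1, h2, h3, hb, hc', he⟩ := h
  obtain ⟨i', hi'⟩ := kp_surj π R c n hn1 hn2 a i ⟨b, hb.symm⟩
  obtain ⟨j', hj'⟩ := kp_surj π R c n hn1 hn2 a j ⟨c', hc'.symm⟩
  obtain ⟨k', hk'⟩ := kp_surj π R c n hn1 hn2 a k ⟨e, he.symm⟩
  have hm := kp_mono R n a
  refine ⟨i', j', k', ?_, ?_, ?_, ?_, ?_, ?_, ?_⟩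
  · apply hm.lt_iff_lt.1
    rw [hi']
    exact h0
  · apply hm.lt_iff_lt.1
    rw [hi', hj']
    exact h1
  · apply hm.lt_iff_lt.1
    rw [hj', hk']
    exact h2
  · by_contra hle
    rw [not_lt] at hle
    have hpos := per_pos R a
    have h4 : kp R n a (Function.minimalPeriod R a) ≤ k := by
      rw [← hk']
      exact hm.monotone hle
    have h5 : 0 < kp R n a (Function.minimalPeriod R a) := by
      have := hm hpos
      exact this
    have h6 : Function.IsPeriodicPt π (kp R n a (Function.minimalPeriod R a)) (c a) := by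
      unfold Function.IsPeriodicPt Function.IsFixedPt
      rw [← Perm.coe_pow, ← kp_spec π R c n hn1 a]
      congr 1
      have := Function.iterate_minimalPeriod (f := R) (x := a)
      rwa [← Perm.coe_pow] at this
    have h7 := h6.minimalPeriod_le h5
    omega
  · apply hc
    rw [kp_spec π R c n hn1 a, hi', hb]
  · apply hc
    rw [kp_spec π R c n hn1 a, hj', hc']
  · apply hc
    rw [kp_spec π R c n hn1 a, hk', he]

end transfer

theorem main (hAr : StAr) : StAfm := by
  classical
  intro V D _ _ M hloop hpar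
  obtain ⟨hrot, hrep⟩ := hAr V D M hpar
  have := Fintype.ofFinite D
  have := finDart M.graph
  obtain ⟨c, hc1, hc2, hc3⟩ := choose_c M
  have hcinj : Function.Injective c := by
    intro d d' h
    apply SimpleGraph.Dart.ext
    apply Prod.ext
    · have := congrArg M.t h
      rwa [hc1, hc1] at this
    · have := congrArg (fun x => M.t (M.ι x)) h
      simp only [hc2] at this
      exact this
  obtain ⟨R, -, -, hk⟩ := M.exists_rot (G := M.graph) id Function.injective_id c hcinj hc1 hc3
  choose n hn1 hn2 using hk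
  refine ⟨R, fun W h => ?_⟩
  intro a b c' e ha halt hA hB hC
  by_contra hE
  have tb : M.t b = M.t a := by
    obtain ⟨i, j, k, -, -, -, -, h1, -, -⟩ := halt
    rw [← h1, M.t_pow]
  have tc : M.t c' = M.t a := by
    obtain ⟨i, j, k, -, -, -, -, -, h1, -⟩ := halt
    rw [← h1, M.t_pow]
  have te : M.t e = M.t a := by
    obtain ⟨i, j, k, -, -, -, -, -, -, h1⟩ := halt
    rw [← h1, M.t_pow]
  have nBA : M.t (M.ι b) ≠ M.t (M.ι a) := fun h => hB (h ▸ hA)
  have nEA : M.t (M.ι e) ≠ M.t (M.ι a) := fun h => hE (h ▸ hA)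
  have nBC : M.t (M.ι b) ≠ M.t (M.ι c') := fun h => hB (h ▸ hC)
  have nEC : M.t (M.ι e) ≠ M.t (M.ι c') := fun h => hE (h ▸ hC)
  have nCA : M.t (M.ι c') ≠ M.t (M.ι a) := by
    intro h1
    rcases hpar a b c' e halt h1 with h2 | h2
    · exact nBA h2
    · exact nEA h2
  have nEB : M.t (M.ι e) ≠ M.t (M.ι b) := by
    intro h1
    rcases hpar b c' e a (hrot _ _ _ _ halt) h1 with h2 | h2
    · exact nBC h2.symm
    · exact nBA h2.symm
  have mk : ∀ x : D, M.t x = M.t a → M.graph.Adj (M.t a) (M.t (M.ι x)) := by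
    intro x hx
    refine ⟨fun h => hloop x ?_, x, hx, rfl⟩
    rw [← h, hx]
  set da : M.graph.Dart := ⟨(M.t a, M.t (M.ι a)), mk a rfl⟩ with hda
  set db : M.graph.Dart := ⟨(M.t a, M.t (M.ι b)), mk b tb⟩ with hdb
  set dc : M.graph.Dart := ⟨(M.t a, M.t (M.ι c')), mk c' tc⟩ with hdc
  set de : M.graph.Dart := ⟨(M.t a, M.t (M.ι e)), mk e te⟩ with hde
  have s1 : Alt M.r (c da) b c' e :=
    hrep a (c da) b c' e halt (hc1 da) (hc2 da) nBA nCA nEA
  have s2 : Alt M.r (c db) c' e (c da) :=
    hrep b (c db) c' e (c da) (hrot _ _ _ _ s1) ((hc1 db).trans tb.symm) (hc2 db) nBC.symm nEB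
      (by rw [hc2 da]; exact nBA.symm)
  have s3 : Alt M.r (c dc) e (c da) (c db) :=
    hrep c' (c dc) e (c da) (c db) (hrot _ _ _ _ s2) ((hc1 dc).trans tc.symm) (hc2 dc) nEC
      (by rw [hc2 da]; exact nCA.symm) (by rw [hc2 db]; exact nBC)
  have s4 : Alt M.r (c de) (c da) (c db) (c dc) :=
    hrep e (c de) (c da) (c db) (c dc) (hrot _ _ _ _ s3) ((hc1 de).trans te.symm) (hc2 de)
      (by rw [hc2 da]; exact nEA.symm) (by rw [hc2 db]; exact nEB.symm)
      (by rw [hc2 dc]; exact nEC.symm)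
  have s5 : Alt M.r (c da) (c db) (c dc) (c de) := hrot _ _ _ _ s4
  have s6 : Alt R.r da db dc de := alt_transfer M.r R.r c n hn1 hn2 hcinj da db dc de s5
  exact hE (h da db dc de ha s6 hA hB hC)

end Pool.Agent.Helper17.SO.AFM
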